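import Pool.Agent.helper58.DC.Defs

/-!
# Dade's conjecture: arbitrary extensions `1 → G → E → A → 1` (`E` may be infinite) from finite ones

Let `A₀` be the image of `E` in `Aut(G)` and `E₀ = G ⋊ A₀`. For a chain `C` of `G` and a function `ψ` on `G` the image of
`e ∈ E` in `A` is in `N_A(C, ψ)` if and only if the image of `e` in `A₀` is in `N_(A₀)(C, ψ)`. So the alternating sum for `E` and `U ≤ A`
is that for `E₀` and `U' ≤ A₀`, if the inverse images of `U` and `U'` in `E` are equal, and `0` if there is no such `U'`.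
-/

set_option autoImplicit false

namespace Pool.Agent.NEI

open Pool.Agent.helper58.DC

section

variable {G E A : Type} [Group G] [Group E] [Group A] (X : Extension G E A)

/-- the action of `G ⋊ A₀` on `G` -/
def act0 : G ⋊[X.act.range.subtype] X.act.range →* MulAut G :=
  SemidirectProduct.lift MulAut.conj X.act.range.subtype (fun a => by
    ext g h
    simp)

theorem act0_apply (y : G ⋊[X.act.range.subtype] X.act.range) :
    act0 X y = MulAut.conj y.left * (y.right : MulAut G) := rfl

/-- the finite extension `G ⋊ A₀` -/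
def X0 : Extension G (G ⋊[X.act.range.subtype] X.act.range) X.act.range where
  inc := SemidirectProduct.inl
  proj := SemidirectProduct.rightHom
  inc_injective := SemidirectProduct.inl_injective
  proj_surjective := SemidirectProduct.rightHom_surjective
  exact := fun e => by
    constructor
    · intro h
      refine ⟨e.left, ?_⟩
      have h1 : e.right = 1 := h
      apply SemidirectProduct.ext
      · rfl
      · exact h1.symm
    · rintro ⟨g, rfl⟩
      rfl
  act := act0 X
  act_spec := fun e g => by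
    have h1 : e = SemidirectProduct.inl e.left * SemidirectProduct.inr e.right :=
      (SemidirectProduct.inl_left_mul_inr_right e).symm
    have h2 : act0 X e g = e.left * ((e.right : MulAut G) g) * e.left⁻¹ := rfl
    have h3 : (SemidirectProduct.inl ((e.right : MulAut G) g) : G ⋊[X.act.range.subtype] X.act.range) =
        SemidirectProduct.inr e.right * SemidirectProduct.inl g * SemidirectProduct.inr e.right⁻¹ :=
      SemidirectProduct.inl_aut (φ := X.act.range.subtype) e.right g
    rw [h2, map_mul, map_mul, h3, map_inv, map_inv]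
    conv_rhs => rw [h1]
    group

theorem act_inc (g : G) : X.act (X.inc g) = MulAut.conj g := by
  ext h
  apply X.inc_injective
  rw [X.act_spec, MulAut.conj_apply, map_mul, map_mul, map_inv]

theorem key (C : Finset (Subgroup G)) (ψ : G → ℂ) (e : E) :
    X.proj e ∈ (X.stab C ψ).map X.proj ↔
      (⟨X.act e, ⟨e, rfl⟩⟩ : X.act.range) ∈ ((X0 X).stab C ψ).map (X0 X).proj := by
  constructor
  · rintro ⟨e₁, h1, h2⟩
    obtain ⟨g, hg⟩ : ∃ g : G, X.inc g = e₁ * e⁻¹ := (X.exact _).1 (by rw [map_mul, map_inv, h2, mul_inv_cancel])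
    have h3 : X.act e₁ = MulAut.conj g * X.act e := by
      have h4 : e₁ = X.inc g * e := by rw [hg, inv_mul_cancel_right]
      rw [h4, map_mul, act_inc]
    refine ⟨⟨g, ⟨X.act e, ⟨e, rfl⟩⟩⟩, ?_, rfl⟩
    have h5 : chainMap (X.act e₁) C = C ∧ funMap (X.act e₁) ψ = ψ := h1
    rw [h3] at h5
    exact h5
  · rintro ⟨y, h1, h2⟩
    have h3 : (y.right : MulAut G) = X.act e := congrArg Subtype.val h2
    have h4 : chainMap (act0 X y) C = C ∧ funMap (act0 X y) ψ = ψ := h1
    have h5 : act0 X y = X.act (X.inc y.left * e) := by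
      rw [act0_apply, h3, map_mul, act_inc]
    rw [h5] at h4
    refine ⟨X.inc y.left * e, h4, ?_⟩
    rw [map_mul, (X.exact _).2 ⟨y.left, rfl⟩, one_mul]

theorem eq_iff {S U : Subgroup A} {S' U' : Subgroup X.act.range}
    (hS : ∀ e : E, X.proj e ∈ S ↔ (⟨X.act e, ⟨e, rfl⟩⟩ : X.act.range) ∈ S')
    (hU : ∀ e : E, X.proj e ∈ U ↔ (⟨X.act e, ⟨e, rfl⟩⟩ : X.act.range) ∈ U') : S = U ↔ S' = U' := by
  constructor
  · intro h
    ext a
    obtain ⟨_, e, rfl⟩ := a
    rw [← hS e, ← hU e, h]
  · intro h
    ext a
    obtain ⟨e, rfl⟩ := X.proj_surjective a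
    rw [hS e, hU e, h]

/-- The alternating sums for an arbitrary extension vanish if those for the finite extensions vanish. -/
theorem main [Finite G] (p : ℕ) (M : Ideal (integralClosure ℤ ℂ)) (χ : G → ℂ) (d : ℤ)
    (h : ∀ (E' A' : Type) [Group E'] [Group A'] [Finite E'] (X' : Extension G E' A') (U' : Subgroup A'),
      altSum X' p M χ d U' = 0) (U : Subgroup A) : altSum X p M χ d U = 0 := by
  by_cases hU : ∃ U' : Subgroup X.act.range, ∀ e : E, X.proj e ∈ U ↔ (⟨X.act e, ⟨e, rfl⟩⟩ : X.act.range) ∈ U'
  · obtain ⟨U', hU⟩ := hU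
    have : Finite (MulAut G) := Finite.of_injective (fun α : MulAut G => (α : G → G)) DFunLike.coe_injective
    have hf : Finite (G ⋊[X.act.range.subtype] X.act.range) :=
      Finite.of_equiv _ (SemidirectProduct.equivProd (φ := X.act.range.subtype)).symm
    rw [← h _ _ (X0 X) U']
    unfold altSum
    refine finsum_congr fun c => ?_
    have hk : kC X p M χ d U c.out.1 = kC (X0 X) p M χ d U' c.out.1 := by
      unfold kC
      have hp : ∀ ψ : G → ℂ, (ψ ∈ IrrOn (nrm c.out.1) ∧ Defect p (nrm c.out.1) ψ d ∧ Induces M ψ χ ∧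
          (X.stab c.out.1 ψ).map X.proj = U) ↔ (ψ ∈ IrrOn (nrm c.out.1) ∧ Defect p (nrm c.out.1) ψ d ∧ Induces M ψ χ ∧
          ((X0 X).stab c.out.1 ψ).map (X0 X).proj = U') := by
        intro ψ
        rw [eq_iff X (key X c.out.1 ψ) hU]
      exact Nat.card_congr (Equiv.subtypeEquivRight hp)
    rw [hk]
  · unfold altSum
    have h0 : ∀ c : Quot (chainRel (G := G) p), (-1) ^ (c.out.1.card - 1) * (kC X p M χ d U c.out.1 : ℤ) = 0 := by
      intro c
      have hk : kC X p M χ d U c.out.1 = 0 := by
        unfold kC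
        have : IsEmpty {ψ : G → ℂ // ψ ∈ IrrOn (nrm c.out.1) ∧ Defect p (nrm c.out.1) ψ d ∧ Induces M ψ χ ∧
            (X.stab c.out.1 ψ).map X.proj = U} := by
          refine ⟨?_⟩
          rintro ⟨ψ, -, -, -, h4⟩
          refine hU ⟨((X0 X).stab c.out.1 ψ).map (X0 X).proj, fun e => ?_⟩
          rw [← h4]
          exact key X c.out.1 ψ e
        exact Nat.card_of_isEmpty
      rw [hk, Nat.cast_zero, mul_zero]
    rw [finsum_congr h0, finsum_zero]

end

end Pool.Agent.NEI
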