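import Pool.Agent.helper37.NE.SpecB

/-!
# MP_baa4d7_al, THEOREM NE: row YEA, the identity for the rows over `w`
-/

set_option autoImplicit false

namespace Pool.Agent.NE

open Pool.Agent.helper58.DC Pool.Agent.DI Pool.Agent.GR Pool.Agent.OB Pool.Agent.DR Pool.Agent.FI Pool.Agent.FI3 Pool.Agent.FI4 Pool.Agent.FI4I Pool.Agent.LE Pool.Agent.L5 Pool.Agent.NAB Pool.Agent.ND

open Classical in
theorem YEA_ind {X : Type} (T : Set X) (hT : T.Finite) (P : X → Prop) :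
    ∑ᶠ x ∈ T, (if P x then (1 : ℂ) else 0) = (Nat.card {x // x ∈ T ∧ P x} : ℂ) := by
  rw [finsum_mem_eq_finite_toFinset_sum _ hT, Finset.sum_boole]
  congr 1
  have h1 : ((hT.toFinset.filter P : Finset X) : Set X) = {x | x ∈ T ∧ P x} := by
    ext x
    simp
  have h2 : Nat.card {x // x ∈ T ∧ P x} = Set.ncard {x | x ∈ T ∧ P x} := Nat.card_coe_set_eq {x | x ∈ T ∧ P x}
  rw [h2, ← h1, Set.ncard_coe_finset]

theorem YEA_pow {G : Type} [Group G] (w : G) (k : ℕ) (ψ : G → ℂ) : cjF (w ^ (k + 1)) ψ = cjF w (cjF (w ^ k) ψ) := by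
  funext g
  simp only [funMap, ← map_inv, MulAut.conj_apply, inv_inv, mul_inv_rev, pow_succ]
  congr 1
  group

section

variable {G : Type} [Group G] [Finite G] {p e t : ℕ}

theorem YEA_one (hZLM : ZLM_stmt) (hp : p.Prime) (hT : Tx p e t G) (Z : Subgroup G) (θ : G → ℂ) :
    st Z t (1 : Z →* ℂˣ) θ = θ := by
  funext g
  unfold st
  rw [(hZLM p e t hp G hT Z 1).2.1.2 g, one_mul]

theorem YEA_mul (hZLM : ZLM_stmt) (hp : p.Prime) (hT : Tx p e t G) (Z : Subgroup G) (ν ν' : Z →* ℂˣ) (θ : G → ℂ) :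
    st Z t ν (st Z t ν' θ) = st Z t (ν * ν') θ := by
  funext g
  unfold st
  rw [(hZLM p e t hp G hT Z ν).2.1.1 ν' g, mul_assoc]

theorem YEA_mt (hZLM : ZLM_stmt) (hp : p.Prime) (hT : Tx p e t G) (Z : Subgroup G) (ν : Z →* ℂˣ) (C : Subgroup G) (f g : G → ℂ) :
    mt C (st Z t ν f) (st Z t ν g) = mt C f g := by
  unfold Pool.Agent.FI.mt
  congr 1
  refine finsum_mem_congr rfl fun x _ => ?_
  unfold st
  have h1 := ((hZLM p e t hp G hT Z ν).1 x).2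
  calc lam Z t ν x * f x * (lam Z t ν x⁻¹ * g x⁻¹) = (lam Z t ν x * lam Z t ν x⁻¹) * (f x * g x⁻¹) := by ring
    _ = f x * g x⁻¹ := by rw [h1, one_mul]

end

open Classical in
theorem YEA (hYRS : YRS_stmt) (hYRW : YRW_stmt) (hYRI : YRI_stmt) (hYSW : YSW_stmt) (hYCL : YCL_stmt) (hYGW : YGW_stmt)
    (hZLM : ZLM_stmt) (hB2 : B2_stmt) : YEA_stmt := by
  intro p e m t M hS G _ _ N χ Z z x w hW hSTR L hL θ₀ hθ₀ hw ψ hψ ε hR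
  have hp : p.Prime := hS.pr
  have hT : Tx p e t G := hW.zn.tx
  obtain ⟨hs1, hs2, hs3, hs4, -, -, -, -⟩ := hYSW p e m t M hS G N χ Z z x hW.zn w hW.ww.nn hW.ww.nZ hW.bs
  obtain ⟨hwL, hHL, hLN⟩ := hs1 L hL
  obtain ⟨-, -, -, hg4, -, -, -⟩ := hYGW p hp G N Z w hW.ww
  have hczn : cz Z ≤ nz Z := by
    intro g hg
    rw [Subgroup.mem_centralizer_iff] at hg
    rw [Subgroup.mem_normalizer_iff]
    intro y
    constructor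
    · intro hy
      have h1 := hg y hy
      have h2 : g * y * g⁻¹ = y := by
        rw [← h1, mul_inv_cancel_right]
      rw [h2]
      exact hy
    · intro hy
      have h1 := hg _ hy
      have h2 : y = g * y * g⁻¹ := by
        have h3 : g * y * g⁻¹ * g = g * (g * y * g⁻¹) := h1
        rw [inv_mul_cancel_right] at h3
        exact mul_left_cancel h3
      rw [h2]
      exact hy
  have hCL : N ⊓ cz Z ≤ L := le_trans (inf_le_inf_left N hczn) hHL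
  have hC'L' : Nw N w ⊓ cz Z ≤ Nw L w := by
    refine le_trans (inf_le_inf_left _ hczn) ?_
    rw [hg4 Z hW.ww.nZ]
    exact sup_le_sup_right hHL _
  obtain ⟨ψ', hψ', hmt⟩ := (hYCL G L w hwL).2.1 ψ hψ.1
  obtain ⟨θ₀', ε', hθ₀', hε', hrow⟩ := hYRW p e m t M hS G N χ Z z x w hW L hL ψ hψ ψ' hψ' hmt
  refine ⟨θ₀', ε', hθ₀', hε', fun θ hθ ν => ?_⟩
  -- the conjugates of `ψ`
  have hk : ∀ k : ℕ, cjF (w ^ k) ψ ∈ GN p e m M N χ L Z ∧ Rw p e m t M N χ Z (cjF (w ^ k) ψ) θ₀ ε := by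
    intro k
    induction k with
    | zero =>
      have h0 : cjF (w ^ 0) ψ = ψ := by
        funext g
        simp [funMap]
      rw [h0]
      exact ⟨hψ, hR⟩
    | succ k ih =>
      rw [YEA_pow]
      refine ⟨hs2 L hwL _ ih.1, ?_⟩
      have h1 := hs3 L hwL hCL _ ih.1 θ₀ ε ih.2
      obtain ⟨h, hh, hwh⟩ := hw
      rw [hwh] at h1
      exact ((hs4 h hh θ₀).2 _ ε).1 h1
  obtain ⟨S, hSd⟩ : ∃ S : Set (G → ℂ), S = {φ : G → ℂ | ∃ k : ℕ, φ = cjF (w ^ k) ψ} := ⟨_, rfl⟩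
  have hSG : ∀ φ ∈ S, φ ∈ GN p e m M N χ L Z ∧ Rw p e m t M N χ Z φ θ₀ ε := by
    intro φ hφ
    rw [hSd] at hφ
    obtain ⟨k, rfl⟩ := hφ
    exact hk k
  have hSfin : S.Finite := (hB2 G L).1.subset fun φ hφ => (hSG φ hφ).1.1
  have hRS := hYRS G (N ⊓ cz Z) L w hwL hCL ψ hψ.1 ψ' hψ' hmt
  rw [← hSd] at hRS ⊢
  have hleft : mt (N ⊓ cz Z) ψ' θ - mt (N ⊓ cz Z) ψ' (st Z t ν θ) =
      (S.ncard : ℂ) * ε * (iH N Z θ₀ θ - iH N Z θ₀ (st Z t ν θ)) := by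
    rw [hRS θ, hRS (st Z t ν θ), ← finsum_mem_sub_distrib _ _ hSfin]
    have h1 : ∑ᶠ φ ∈ S, (mt (N ⊓ cz Z) φ θ - mt (N ⊓ cz Z) φ (st Z t ν θ)) =
        ∑ᶠ φ ∈ S, ε * (iH N Z θ₀ θ - iH N Z θ₀ (st Z t ν θ)) :=
      finsum_mem_congr rfl fun φ hφ => (hSG φ hφ).2 θ hθ ν
    rw [h1, finsum_mem_eq_finite_toFinset_sum _ hSfin, Finset.sum_const, ← Set.ncard_eq_toFinset_card _ hSfin, nsmul_eq_mul,
      mul_assoc]
  -- induction to `C'`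
  obtain ⟨T, hTd⟩ : ∃ T : Set (G → ℂ), T = {θ' : G → ℂ | θ' ∈ IrrOn (Nw N w ⊓ cz Z) ∧ mt (N ⊓ cz Z) θ' θ ≠ 0} := ⟨_, rfl⟩
  have hTm : ∀ x, x ∈ T ↔ (x ∈ IrrOn (Nw N w ⊓ cz Z) ∧ mt (N ⊓ cz Z) x θ ≠ 0) := by
    intro x
    rw [hTd]
    exact Iff.rfl
  have hTfin : T.Finite := (hB2 G (Nw N w ⊓ cz Z)).1.subset fun θ' hθ' => by
    rw [hTd] at hθ'
    exact hθ'.1
  have hcl : ∀ u ∈ Nw N w ⊓ cz Z, ∀ y ∈ Nw N w ⊓ cz Z, ψ' (u * y * u⁻¹) = ψ' y :=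
    fun u hu y _ => ((hB2 G (Nw L w)).2 ψ' hψ').2.1 y u (hC'L' hu)
  have hRI : ∀ ν : Z →* ℂˣ, mt (N ⊓ cz Z) ψ' (st Z t ν θ) = ∑ᶠ θ' ∈ T, mt (Nw N w ⊓ cz Z) ψ' (st Z t ν θ') := by
    intro ν
    rw [hTd]
    exact hYRI p e t hp G hT N Z w hW.ww ψ' hcl θ hθ.1 ν
  have hRI1 : mt (N ⊓ cz Z) ψ' θ = ∑ᶠ θ' ∈ T, mt (Nw N w ⊓ cz Z) ψ' θ' := by
    have h1 := hRI 1
    rw [YEA_one hZLM hp hT] at h1
    rw [h1]
    refine finsum_mem_congr rfl fun θ' _ => ?_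
    rw [YEA_one hZLM hp hT]
  have hTrow : ∀ θ' ∈ T, st Z t ν θ' ∈ IrrOn (Nw N w ⊓ cz Z) ∧
      mt (Nw N w ⊓ cz Z) ψ' θ' - mt (Nw N w ⊓ cz Z) ψ' (st Z t ν θ') =
        ε' * ((if ∃ a ∈ Nw N w ⊓ nz Z, cjF a θ₀' = θ' then (1 : ℂ) else 0) -
          (if ∃ a ∈ Nw N w ⊓ nz Z, cjF a θ₀' = st Z t ν θ' then 1 else 0)) := by
    intro θ' hθ'
    rw [hTd] at hθ'
    exact hrow θ hθ θ' hθ'.1 hθ'.2 ν
  have hsum : mt (N ⊓ cz Z) ψ' θ - mt (N ⊓ cz Z) ψ' (st Z t ν θ) =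
      ε' * ((Nat.card {θ' // θ' ∈ T ∧ ∃ a ∈ Nw N w ⊓ nz Z, cjF a θ₀' = θ'} : ℂ) -
        (Nat.card {θ' // θ' ∈ T ∧ ∃ a ∈ Nw N w ⊓ nz Z, cjF a θ₀' = st Z t ν θ'} : ℂ)) := by
    rw [hRI1, hRI ν, ← finsum_mem_sub_distrib _ _ hTfin, ← YEA_ind T hTfin, ← YEA_ind T hTfin,
      ← finsum_mem_sub_distrib _ _ hTfin, mul_finsum_mem]
    exact finsum_mem_congr rfl fun θ' hθ' => (hTrow θ' hθ').2
  have hc1 : Nat.card {θ' // θ' ∈ T ∧ ∃ a ∈ Nw N w ⊓ nz Z, cjF a θ₀' = θ'} = rN' N (Nw N w) Z θ θ₀' := by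
    unfold rN'
    apply Nat.card_congr
    apply Equiv.subtypeEquivRight
    intro θ'
    rw [hTd]
    exact ⟨fun h => ⟨h.1.1, h.1.2, h.2⟩, fun h => ⟨⟨h.1, h.2.1⟩, h.2.2⟩⟩
  have hνν : ν * ν⁻¹ = 1 := mul_inv_cancel ν
  have hνν' : ν⁻¹ * ν = 1 := inv_mul_cancel ν
  have hst := hSTR.sm θ hθ ν
  have hkey : ∀ x : G → ℂ, mt (N ⊓ cz Z) (st Z t ν⁻¹ x) θ = mt (N ⊓ cz Z) x (st Z t ν θ) := by
    intro x
    have h1 := YEA_mt hZLM hp hT Z ν⁻¹ (N ⊓ cz Z) x (st Z t ν θ)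
    rw [YEA_mul hZLM hp hT, hνν', YEA_one hZLM hp hT] at h1
    exact h1
  have hc2 : Nat.card {θ' // θ' ∈ T ∧ ∃ a ∈ Nw N w ⊓ nz Z, cjF a θ₀' = st Z t ν θ'} =
      rN' N (Nw N w) Z (st Z t ν θ) θ₀' := by
    unfold rN'
    apply Nat.card_congr
    refine
      { toFun := fun θ' => ⟨st Z t ν θ'.1, (hTrow θ'.1 θ'.2.1).1, ?_, θ'.2.2⟩
        invFun := fun θ'' => ⟨st Z t ν⁻¹ θ''.1, ?_, ?_⟩
        left_inv := ?_
        right_inv := ?_ }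
    · rw [YEA_mt hZLM hp hT]
      exact ((hTm _).1 θ'.2.1).2
    · refine (hTm _).2 ⟨(hrow (st Z t ν θ) hst.1 θ''.1 θ''.2.1 θ''.2.2.1 ν⁻¹).1, ?_⟩
      rw [hkey]
      exact θ''.2.2.1
    · rw [YEA_mul hZLM hp hT, hνν, YEA_one hZLM hp hT]
      exact θ''.2.2.2
    · intro θ'
      apply Subtype.ext
      change st Z t ν⁻¹ (st Z t ν θ'.1) = θ'.1
      rw [YEA_mul hZLM hp hT, hνν', YEA_one hZLM hp hT]
    · intro θ''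
      apply Subtype.ext
      change st Z t ν (st Z t ν⁻¹ θ''.1) = θ''.1
      rw [YEA_mul hZLM hp hT, hνν, YEA_one hZLM hp hT]
  rw [← hleft, hsum, hc1, hc2]

end Pool.Agent.NE
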